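import Mathlib
import Pool.Agent.Y704.LP.Fin
import Pool.Agent.Y704.LP.Deck

/-!
# A quotient by an isometric involution embeds into Hilbert space, the space into no `L_p`

There is a uniformly locally finite metric space `X` with an isometric involution `σ` moving all
points, and all but finitely many of them by more than any given distance, such that the quotient
`Y = X / σ` with the quotient metric `min (d (x, x'), d (x, σ x'))` coarsely embeds into a Hilbert
space, whereas `X` coarsely embeds neither into a Hilbert space nor into any space `L_p (μ)`,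
`1 ≤ p < ∞`.

The spaces are those of the library `Pool.Agent.H339R3.CE`: mod 2 homology covers of finite graphs
of large (even) girth and uniform expansion, and their double covers with extraspecial deck groups.
What is added: the twisted Poincaré inequality of that library is transferred from `L_2` to `L_p` by
the Mazur map `x ↦ sign x |x| ^ (p / 2)`, which commutes with the signs of the twist and obeys
`(φ x - φ y) ^ 2 ≤ K |x - y| ^ p + δ (|x| ^ p + |y| ^ p)` for every `δ > 0`, with `K` depending on
`δ` and `p`; and the metric of `Y` is identified with the quotient metric.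
-/

set_option autoImplicit false

universe u

namespace Pool.Agent.Results.MP_2695c4_gt.QuotientByInvolutionNoLp

open Filter MeasureTheory

/-- A metric space is uniformly locally finite if for every `r > 0` the closed balls of radius `r`
are finite with a common bound for the number of their points. -/
def UniformlyLocallyFinite (X : Type*) [MetricSpace X] : Prop :=
  ∀ r : ℝ, 0 < r → ∃ N : ℕ, ∀ x : X, (Metric.closedBall x r).encard ≤ N

/-- Coarse maps. -/
def IsCoarseMap {X Y : Type*} [MetricSpace X] [MetricSpace Y] (f : X → Y) : Prop :=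
  ∀ r : ℝ, 0 < r → ∃ s : ℝ, 0 < s ∧ ∀ x x' : X, dist x x' ≤ r → dist (f x) (f x') ≤ s

/-- Uniformly finite-to-one maps: the fibres are finite with a common bound for the number of their
points. -/
def IsUniformlyFiniteToOne {X Y : Type*} (f : X → Y) : Prop :=
  ∃ N : ℕ, ∀ y : Y, (f ⁻¹' {y}).encard ≤ N

/-- `g` is a coarse embedding into the normed space `H`: there are functions
`ρ₋, ρ₊ : [0, ∞) → [0, ∞)` with `ρ₋ (t) → ∞` as `t → ∞` such that
`ρ₋ (d (x, x')) ≤ ‖g x - g x'‖ ≤ ρ₊ (d (x, x'))` for all `x, x'`. -/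
def IsCoarseEmbedding {X H : Type*} [MetricSpace X] [NormedAddCommGroup H] (g : X → H) : Prop :=
  ∃ ρm ρp : NNReal → NNReal, Tendsto ρm atTop atTop ∧
    ∀ x x' : X, ρm (nndist x x') ≤ ‖g x - g x'‖₊ ∧ ‖g x - g x'‖₊ ≤ ρp (nndist x x')

/-- `X` coarsely embeds into a (real) Hilbert space of universe `u`. -/
def CoarselyEmbedsIntoHilbertSpace (X : Type) [MetricSpace X] : Prop :=
  ∃ (H : Type u) (_ : NormedAddCommGroup H) (_ : InnerProductSpace ℝ H) (_ : CompleteSpace H)
    (g : X → H), IsCoarseEmbedding g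

/-- `X` coarsely embeds into the real space `L_p (Ω, μ)` for some `1 ≤ p < ∞` and some measure
space `(Ω, μ)` of universe `u`. -/
def CoarselyEmbedsIntoSomeLp (X : Type) [MetricSpace X] : Prop :=
  ∃ (p : ENNReal) (_ : Fact (1 ≤ p)) (_ : p ≠ ⊤) (Ω : Type u) (_ : MeasurableSpace Ω)
    (μ : Measure Ω) (g : X → Lp ℝ p μ), IsCoarseEmbedding g

/-- There are uniformly locally finite metric spaces `X`, `Y`, a uniformly finite-to-one coarse map
`f : X → Y` and an isometric involution `σ` of `X` without fixed points, such that only finitely many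
points are moved by at most `r`, for every `r`, `f` is onto, its fibres are the orbits of `σ` and
`d (f x, f x') = min (d (x, x'), d (x, σ x'))`, and such that `Y` coarsely embeds into a Hilbert
space but `X` embeds coarsely neither into a Hilbert space nor into any `L_p (μ)`, `1 ≤ p < ∞`. -/
theorem result : ∃ (X Y : Type) (_ : MetricSpace X) (_ : MetricSpace Y) (f : X → Y) (σ : X ≃ᵢ X),
    UniformlyLocallyFinite X ∧ UniformlyLocallyFinite Y ∧
    IsCoarseMap f ∧ IsUniformlyFiniteToOne f ∧
    (∀ x, σ (σ x) = x) ∧ (∀ x, σ x ≠ x) ∧ (∀ r : ℝ, {x : X | dist x (σ x) ≤ r}.Finite) ∧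
    Function.Surjective f ∧ (∀ x x', f x = f x' ↔ x' = x ∨ x' = σ x) ∧
    (∀ x x', dist (f x) (f x') = min (dist x x') (dist x (σ x'))) ∧
    CoarselyEmbedsIntoHilbertSpace.{0} Y ∧
    ¬ CoarselyEmbedsIntoHilbertSpace.{u} X ∧ ¬ CoarselyEmbedsIntoSomeLp.{u} X := by
  refine ⟨Pool.Agent.H339R3.CE.XS, Pool.Agent.H339R3.CE.YS, inferInstance, inferInstance,
    Pool.Agent.H339R3.CE.pr, Pool.Agent.Y704.LP.sxe, fun r _ => Pool.Agent.H339R3.CE.X_ulf r,
    fun r _ => Pool.Agent.H339R3.CE.Y_ulf r,
    fun r hr => ⟨r, hr, fun x x' h => le_trans (Pool.Agent.H339R3.CE.pr_lip x x') h⟩,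
    ⟨2, fun y => Pool.Agent.H339R3.CE.pr_fib y⟩, Pool.Agent.Y704.LP.sx_sx, Pool.Agent.Y704.LP.sx_ne,
    Pool.Agent.Y704.LP.sx_finite, Pool.Agent.Y704.LP.pr_surj, Pool.Agent.Y704.LP.pr_iff,
    Pool.Agent.Y704.LP.pr_dist, ?_, ?_, ?_⟩
  · refine ⟨Pool.Agent.H339R3.CE.HY, inferInstance, inferInstance, inferInstance,
      Pool.Agent.H339R3.CE.phi, NNReal.sqrt,
      fun t => (⌊(t : ℝ)⌋₊ : NNReal) + 2 * (Pool.Agent.H339R3.CE.cst ⌊(t : ℝ)⌋₊).toNNReal,
      ?_, ?_⟩
    · have h1 : Tendsto (fun t : NNReal => Real.sqrt (t : ℝ)) atTop atTop :=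
        Real.tendsto_sqrt_atTop.comp (NNReal.tendsto_coe_atTop.mpr tendsto_id)
      rw [← NNReal.tendsto_coe_atTop]
      refine h1.congr (fun t => ?_)
      rw [Real.coe_sqrt]
    · intro x x'
      constructor
      · rw [← NNReal.coe_le_coe, Real.coe_sqrt, coe_nndist, coe_nnnorm]
        exact Pool.Agent.H339R3.CE.phi_lower x x'
      · rw [← NNReal.coe_le_coe, coe_nnnorm]
        have h1 := Pool.Agent.H339R3.CE.phi_upper x x'
        show ‖_‖ ≤ (((⌊((nndist x x' : NNReal) : ℝ)⌋₊ : NNReal)
          + 2 * (Pool.Agent.H339R3.CE.cst ⌊((nndist x x' : NNReal) : ℝ)⌋₊).toNNReal : NNReal) : ℝ)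
        rw [coe_nndist]
        push_cast
        rw [Real.coe_toNNReal _ (Pool.Agent.H339R3.CE.cst_nonneg _)]
        exact h1
  · rintro ⟨H, i1, i2, _, g, ρm, ρp, hm, hg⟩
    refine Pool.Agent.H339R3.CE.X_not g (fun t => (ρm t.toNNReal : ℝ)) (fun t => (ρp t.toNNReal : ℝ))
      ?_ ?_ ?_
    · apply NNReal.tendsto_coe_atTop.mpr
      exact hm.comp tendsto_real_toNNReal_atTop
    · intro x x'
      have h := (hg x x').1
      rw [← NNReal.coe_le_coe, coe_nnnorm] at h
      have h2 : (dist x x').toNNReal = nndist x x' := by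
        rw [← coe_nndist, Real.toNNReal_coe]
      rw [h2]; exact h
    · intro x x'
      have h := (hg x x').2
      rw [← NNReal.coe_le_coe, coe_nnnorm] at h
      have h2 : (dist x x').toNNReal = nndist x x' := by
        rw [← coe_nndist, Real.toNNReal_coe]
      rw [h2]; exact h
  · rintro ⟨p, hp1, hp, Ω, _, μ, g, ρm, ρp, hm, hg⟩
    have := hp1
    refine Pool.Agent.Y704.LP.X_not_Lp p hp μ g (fun t => (ρm t.toNNReal : ℝ))
      (fun t => (ρp t.toNNReal : ℝ)) ?_ ?_ ?_
    · apply NNReal.tendsto_coe_atTop.mpr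
      exact hm.comp tendsto_real_toNNReal_atTop
    · intro x x'
      have h := (hg x x').1
      rw [← NNReal.coe_le_coe, coe_nnnorm] at h
      have h2 : (dist x x').toNNReal = nndist x x' := by
        rw [← coe_nndist, Real.toNNReal_coe]
      rw [h2]; exact h
    · intro x x'
      have h := (hg x x').2
      rw [← NNReal.coe_le_coe, coe_nnnorm] at h
      have h2 : (dist x x').toNNReal = nndist x x' := by
        rw [← coe_nndist, Real.toNNReal_coe]
      rw [h2]; exact h

end Pool.Agent.Results.MP_2695c4_gt.QuotientByInvolutionNoLp
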